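import Pool.Agent.H631.TH.ZStm

set_option autoImplicit false

namespace Pool.Agent.H284.TH

open MeasureTheory Set Filter Topology Pool.Agent.H631.TH

/-- data on the real valued function -/
lemma levels {X : Type} [MeasurableSpace X] (μ : Measure X) [IsFiniteMeasure μ]
    (f : X → ℝ) (hf : Measurable f) (m : ℝ) (hm : 0 < m) (hμ : (μ univ).toReal = m)
    (f0 : ∀ x, 0 ≤ f x) (f1 : ∀ x, f x ≤ 1)
    (hl : ∀ c : ℝ, 0 ≤ c → c ≤ 1 → μ {x | f x < c} = ENNReal.ofReal (c * m)) (c : ℝ) :
    μ {x | f x = c} = 0 := by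
  have mlt : ∀ a : ℝ, MeasurableSet {x | f x < a} := fun a => measurableSet_lt hf measurable_const
  have meq : MeasurableSet {x | f x = c} := measurableSet_eq_fun hf measurable_const
  by_cases h0 : c < 0
  · have : {x | f x = c} = ∅ := by
      ext x
      simp only [mem_ofPred_eq, mem_empty_iff_false, iff_false]
      intro h
      linarith [f0 x]
    rw [this, measure_empty]
  by_cases h1 : 1 < c
  · have : {x | f x = c} = ∅ := by
      ext x
      simp only [mem_ofPred_eq, mem_empty_iff_false, iff_false]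
      intro h
      linarith [f1 x]
    rw [this, measure_empty]
  push Not at h0 h1
  have hdis : Disjoint {x | f x < c} {x | f x = c} := by
    rw [Set.disjoint_left]
    intro x hx hx'
    simp only [mem_ofPred_eq] at hx hx'
    linarith
  have hun : μ {x | f x < c} + μ {x | f x = c} = μ ({x | f x < c} ∪ {x | f x = c}) :=
    (measure_union hdis meq).symm
  rw [hl c h0 h1] at hun
  rcases eq_or_lt_of_le h1 with h1' | h1'
  · subst h1'
    have h2 : μ ({x | f x < 1} ∪ {x | f x = 1}) ≤ μ univ := measure_mono (subset_univ _)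
    rw [← hun, one_mul, ← hμ, ENNReal.ofReal_toReal (measure_ne_top μ _)] at h2
    by_contra h3
    have h4 : μ univ + 0 < μ univ + μ {x | f x = 1} :=
      ENNReal.add_lt_add_left (measure_ne_top μ _) (pos_iff_ne_zero.mpr h3)
    rw [add_zero] at h4
    exact absurd h2 (not_le.mpr h4)
  · by_contra h3
    have he : 0 < (μ {x | f x = c}).toReal := ENNReal.toReal_pos h3 (measure_ne_top μ _)
    set e := (μ {x | f x = c}).toReal with hedef
    set δ : ℝ := min (1 - c) (e / (2 * m)) with hδ
    have hδ0 : 0 < δ := lt_min (by linarith) (by positivity)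
    have hδ1 : c + δ ≤ 1 := by
      have := min_le_left (1 - c) (e / (2 * m))
      linarith
    have hδ2 : δ * m ≤ e / 2 := by
      have h5 := min_le_right (1 - c) (e / (2 * m))
      calc δ * m ≤ e / (2 * m) * m := by gcongr
        _ = e / 2 := by field_simp
    have h4 : μ ({x | f x < c} ∪ {x | f x = c}) ≤ μ {x | f x < c + δ} := by
      apply measure_mono
      intro x hx
      simp only [mem_union, mem_ofPred_eq] at hx ⊢
      rcases hx with hx | hx <;> linarith
    rw [← hun, hl (c + δ) (by linarith) hδ1] at h4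
    have h5 := ENNReal.toReal_mono ENNReal.ofReal_ne_top h4
    rw [ENNReal.toReal_add ENNReal.ofReal_ne_top (measure_ne_top μ _),
      ENNReal.toReal_ofReal (by positivity), ENNReal.toReal_ofReal (by positivity)] at h5
    have h6 : e ≤ δ * m := by nlinarith
    linarith

theorem th_EMB (hB : S_BASE) (hR : S_REAL) (hC : S_CDF) (hD : S_BIN) : S_EMB := by
  intro X _ _ _ _ μ _ hat hμ0
  classical
  obtain ⟨B, hBo, hBf, hBb⟩ := hB X μ
  obtain ⟨h, hm, hc, hinj⟩ := hR X B hBo hBb
  obtain ⟨hD1, hD2, hD3⟩ := hD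
  set W : Set X := ⋃ n, frontier (B n) with hW
  have hW0 : μ W = 0 := measure_iUnion_null hBf
  -- the image measure
  have hsub : ∀ r : ℝ, (h ⁻¹' {r}).Subsingleton := by
    intro r x hx y hy
    simp only [mem_preimage, mem_singleton_iff] at hx hy
    have h1 : h x ∈ closure (h '' {y}) := by
      rw [image_singleton, closure_singleton, mem_singleton_iff, hx, hy]
    have h2 := hinj {y} x h1
    rwa [closure_singleton, mem_singleton_iff] at h2
  set ν : Measure ℝ := μ.map h with hν
  have hνf : IsFiniteMeasure ν := by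
    rw [hν]; infer_instance
  have hν0 : ∀ r, ν {r} = 0 := by
    intro r
    rw [hν, Measure.map_apply hm (measurableSet_singleton r)]
    rcases (hsub r).eq_empty_or_singleton with h1 | ⟨x, h1⟩
    · rw [h1, measure_empty]
    · rw [h1]; exact hat x
  obtain ⟨Fcont, Fmono, Flev, Fcount⟩ := hC ν hν0
  have hνu : ν univ = μ univ := by
    rw [hν, Measure.map_apply hm MeasurableSet.univ, preimage_univ]
  set Fc : ℝ → ℝ := fun r => (ν (Iic r)).toReal with hFc
  set m : ℝ := (μ univ).toReal with hmdef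
  have hm0 : 0 < m := ENNReal.toReal_pos hμ0 (measure_ne_top μ _)
  have hF0 : ∀ r, 0 ≤ Fc r := fun r => ENNReal.toReal_nonneg
  have hF1 : ∀ r, Fc r ≤ m := by
    intro r
    rw [hmdef, ← hνu]
    exact ENNReal.toReal_mono (measure_ne_top ν _) (measure_mono (subset_univ _))
  set f : X → ℝ := fun x => Fc (h x) / m with hfdef
  have f0 : ∀ x, 0 ≤ f x := fun x => div_nonneg (hF0 _) hm0.le
  have f1 : ∀ x, f x ≤ 1 := fun x => (div_le_one hm0).mpr (hF1 _)
  have fmeas : Measurable f := (Fcont.measurable.comp hm).div_const m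
  have flev : ∀ c : ℝ, 0 ≤ c → c ≤ 1 → μ {x | f x < c} = ENNReal.ofReal (c * m) := by
    intro c hc0 hc1
    have h1 := Flev (c * m) (by positivity) (by rw [hνu]; nlinarith)
    rw [← h1, hν, Measure.map_apply hm]
    · congr 1
      ext x
      simp only [mem_ofPred_eq, mem_preimage]
      rw [hfdef]
      exact div_lt_iff₀ hm0
    · exact (isOpen_lt Fcont continuous_const).measurableSet
  have fnull : ∀ c : ℝ, μ {x | f x = c} = 0 :=
    levels μ f fmeas m hm0 rfl f0 f1 flev
  have fcont : ContinuousOn f Wᶜ := (Fcont.comp_continuousOn hc).div_const m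
  -- the countable set
  set D : Set ℝ := {r | ∃ (n : ℕ) (k : ℤ), r = k / 2 ^ n} ∪
    (fun c => c / m) '' {c : ℝ | ∃ a b : ℝ, a < b ∧ (ν (Iic a)).toReal = c ∧
      (ν (Iic b)).toReal = c} with hDdef
  have hDc : D.Countable := by
    apply Set.Countable.union _ (Fcount.image _)
    have : {r : ℝ | ∃ (n : ℕ) (k : ℤ), r = k / 2 ^ n} =
        range (fun p : ℕ × ℤ => (p.2 : ℝ) / 2 ^ p.1) := by
      ext r
      constructor
      · rintro ⟨n, k, rfl⟩
        exact ⟨(n, k), rfl⟩
      · rintro ⟨⟨n, k⟩, rfl⟩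
        exact ⟨n, k, rfl⟩
    rw [this]
    exact countable_range _
  have hD0 : (0 : ℝ) ∈ D := Or.inl ⟨0, 0, by simp⟩
  have hD1' : (1 : ℝ) ∈ D := Or.inl ⟨0, 1, by simp⟩
  obtain ⟨d, hd⟩ := hDc.exists_eq_range ⟨0, hD0⟩
  -- the closed null sets
  set E : ℕ ⊕ ℕ → Set X := Sum.elim (fun n => frontier (B n))
    (fun n => closure (f ⁻¹' {d n} \ W)) with hE
  set Z : ℕ → Set X := fun n => E (Equiv.natSumNatEquivNat.symm n) with hZ
  have hZmem : ∀ x, x ∈ ⋃ n, Z n ↔ ∃ s, x ∈ E s := by
    intro x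
    rw [mem_iUnion]
    constructor
    · rintro ⟨n, hn⟩
      exact ⟨_, hn⟩
    · rintro ⟨s, hs⟩
      refine ⟨Equiv.natSumNatEquivNat s, ?_⟩
      rw [hZ]
      simp only [Equiv.symm_apply_apply]
      exact hs
  have hEcl : ∀ s, IsClosed (E s) := by
    rintro (n | n)
    · exact isClosed_frontier
    · exact isClosed_closure
  have hEnull : ∀ s, μ (E s) = 0 := by
    rintro (n | n)
    · exact hBf n
    · have hsub2 : closure (f ⁻¹' {d n} \ W) ⊆ {x | f x = d n} ∪ W := by
        intro x hx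
        by_cases hxW : x ∈ W
        · exact Or.inr hxW
        · left
          have h1 : ContinuousWithinAt f (f ⁻¹' {d n} \ W) x :=
            (fcont x hxW).mono (fun y hy => hy.2)
          have h2 := h1.mem_closure_image hx
          have h3 : f '' (f ⁻¹' {d n} \ W) ⊆ {d n} := by
            rintro _ ⟨y, hy, rfl⟩
            exact hy.1
          have h4 := closure_mono h3 h2
          rwa [closure_singleton, mem_singleton_iff] at h4
      exact measure_mono_null hsub2 (measure_union_null (fnull _) hW0)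
  have hZnull : μ (⋃ n, Z n) = 0 := measure_iUnion_null (fun n => hEnull _)
  have notW : ∀ x ∈ (⋃ n, Z n)ᶜ, x ∉ W := by
    intro x hx hxW
    apply hx
    rw [hZmem]
    obtain ⟨n, hn⟩ := mem_iUnion.mp hxW
    exact ⟨Sum.inl n, hn⟩
  have notD : ∀ x ∈ (⋃ n, Z n)ᶜ, f x ∉ D := by
    intro x hx hxD
    have hxW := notW x hx
    rw [hd] at hxD
    obtain ⟨n, hn⟩ := hxD
    apply hx
    rw [hZmem]
    exact ⟨Sum.inr n, subset_closure ⟨hn.symm, hxW⟩⟩
  have fIco : ∀ x ∈ (⋃ n, Z n)ᶜ, f x ∈ Ico (0 : ℝ) 1 := by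
    intro x hx
    refine ⟨f0 x, lt_of_le_of_ne (f1 x) ?_⟩
    intro h1
    exact notD x hx (h1 ▸ hD1')
  refine ⟨Z, fun x => dig (f x), fun n => hEcl _, fun n => hEnull _, ?_, ?_, ?_⟩
  · -- continuity
    refine hD2.comp (fcont.mono (fun x hx => notW x hx)) ?_
    intro x hx n k hk
    exact notD x hx (Or.inl ⟨n, k, hk⟩)
  · -- separation
    intro S hS x hx hcl
    have h1 : dig (f x) ∈ closure (dig '' (f '' S)) := by
      rwa [image_image]
    have h2 : f x ∈ closure (f '' S) := by
      refine hD3 (f '' S) ?_ (f x) (fIco x hx) h1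
      rintro _ ⟨y, hy, rfl⟩
      exact fIco y (hS hy)
    apply hinj
    rw [Metric.mem_closure_iff]
    intro ε hε
    have hnot : ∀ a b : ℝ, a < b → Fc a = Fc (h x) → Fc b ≠ Fc (h x) := by
      intro a b hab h3 h4
      apply notD x hx
      right
      exact ⟨Fc (h x), ⟨a, b, hab, h3, h4⟩, rfl⟩
    have hlt1 : Fc (h x - ε) < Fc (h x) := by
      refine lt_of_le_of_ne (Fmono (by linarith)) ?_
      intro h3
      exact hnot (h x - ε) (h x) (by linarith) h3 rfl
    have hlt2 : Fc (h x) < Fc (h x + ε) := by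
      refine lt_of_le_of_ne (Fmono (by linarith)) ?_
      intro h3
      exact hnot (h x) (h x + ε) (by linarith) rfl h3.symm
    obtain ⟨_, ⟨s, hs, rfl⟩, hsd⟩ := Metric.mem_closure_iff.mp h2
      (min (Fc (h x) - Fc (h x - ε)) (Fc (h x + ε) - Fc (h x)) / m)
      (div_pos (lt_min (by linarith) (by linarith)) hm0)
    refine ⟨h s, ⟨s, hs, rfl⟩, ?_⟩
    rw [Real.dist_eq] at hsd ⊢
    have h5 : |Fc (h x) - Fc (h s)| < min (Fc (h x) - Fc (h x - ε)) (Fc (h x + ε) - Fc (h x)) := by
      have h6 : f x - f s = (Fc (h x) - Fc (h s)) / m := by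
        rw [hfdef]
        simp only
        rw [sub_div]
      rw [h6, abs_div, abs_of_pos hm0] at hsd
      exact (div_lt_div_iff_of_pos_right hm0).mp hsd
    obtain ⟨h6, h7⟩ := lt_min_iff.mp h5
    rw [abs_lt] at h6 h7 ⊢
    constructor
    · by_contra h8
      push Not at h8
      have h9 : Fc (h x + ε) ≤ Fc (h s) := Fmono (by linarith)
      linarith [h7.1]
    · by_contra h8
      push Not at h8
      have h9 : Fc (h s) ≤ Fc (h x - ε) := Fmono (by linarith)
      linarith [h6.2]
  · -- measure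
    intro u
    obtain ⟨k, hk, hkI⟩ := hD1 u
    have hset : {x | ∀ i, ∀ hi : i < u.length, dig (f x) i = u[i]} \ ⋃ n, Z n =
        ({x | f x < ((k : ℝ) + 1) / 2 ^ u.length} \ {x | f x < (k : ℝ) / 2 ^ u.length}) \
          ⋃ n, Z n := by
      ext x
      simp only [Set.mem_sdiff, mem_ofPred_eq]
      constructor
      · rintro ⟨h1, h2⟩
        have h3 : f x ∈ {r : ℝ | r ∈ Ico (0 : ℝ) 1 ∧ ∀ i, ∀ hi : i < u.length, dig r i = u[i]} :=
          ⟨fIco x h2, h1⟩
        rw [hkI] at h3
        exact ⟨⟨h3.2, not_lt.mpr h3.1⟩, h2⟩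
      · rintro ⟨⟨h1, h3⟩, h2⟩
        have h4 : f x ∈ {r : ℝ | r ∈ Ico (0 : ℝ) 1 ∧ ∀ i, ∀ hi : i < u.length, dig r i = u[i]} := by
          rw [hkI]
          exact ⟨not_lt.mp h3, h1⟩
        exact ⟨h4.2, h2⟩
    have hpow : (0 : ℝ) < 2 ^ u.length := by positivity
    have hk1 : ((k : ℝ) + 1) ≤ 2 ^ u.length := by exact_mod_cast hk
    have hk0 : (0 : ℝ) ≤ k := Nat.cast_nonneg k
    rw [hset, measure_sdiff_null hZnull, measure_sdiff]
    · rw [flev _ (by positivity) ((div_le_one hpow).mpr hk1),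
        flev _ (by positivity) ((div_le_one hpow).mpr (by linarith)),
        ← ENNReal.ofReal_sub _ (by positivity)]
      have h5 : ((k : ℝ) + 1) / 2 ^ u.length * m - (k : ℝ) / 2 ^ u.length * m =
          m / 2 ^ u.length := by
        field_simp
        ring
      rw [h5, ENNReal.ofReal_div_of_pos hpow, hmdef, ENNReal.ofReal_toReal (measure_ne_top μ _),
        ENNReal.ofReal_pow (by norm_num), ENNReal.ofReal_ofNat]
    · intro x hx
      simp only [mem_ofPred_eq] at hx ⊢
      refine lt_of_lt_of_le hx ?_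
      gcongr
      linarith
    · exact (measurableSet_lt fmeas measurable_const).nullMeasurableSet
    · exact measure_ne_top μ _

end Pool.Agent.H284.TH
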